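import Pool.Agent.Helper75.LQ.Raise
import Pool.Agent.Helper29.T1.Main

/-!
# MP_e2a5d3_al : all large powers of the edge ideal of a gapfree graph have linear quotients
-/

namespace Pool.Agent.Results.MP_e2a5d3_al.LargePowers

open Pool.Agent.LQ SimpleGraph

/-- Let `G` be a finite gapfree graph and let `c v + 1 ≥ α(G[N(v)])` for every vertex `v`. Then
`I(G)^s` has linear quotients for every `s ≥ 1` such that the sum of the `c v` over every
independent set is at most `s`, and for every `s` with `2 s > ∑ c v`. -/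
theorem result (K : Type*) [Field K] {V : Type*} [Fintype V] (G : SimpleGraph V)
    (hG : ∀ a b c d, G.Adj a b → G.Adj c d → G.Adj a c ∨ G.Adj a d ∨ G.Adj b c ∨ G.Adj b d)
    (c : V → ℕ) (hc : ∀ v, (G.induce (G.neighborSet v)).indepNum ≤ c v + 1)
    (s : ℕ) (hs1 : 1 ≤ s)
    (hs : (∀ T : Finset V, G.IsIndepSet (T : Set V) → ∑ v ∈ T, c v ≤ s) ∨ ∑ v, c v < 2 * s) :
    HasLinearQuotients (edgeIdeal K G ^ s) := by
  classical
  rw [hasLinearQuotients_iff]
  have hk : ∀ v, ∀ I : Finset V, (∀ x ∈ I, G.Adj v x) → (∀ x ∈ I, ∀ y ∈ I, ¬ G.Adj x y) →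
      I.card ≤ c v + 1 := by
    intro v I h1 h2
    refine le_trans ?_ (hc v)
    have hI : ∀ x ∈ I, x ∈ G.neighborSet v := h1
    let J : Finset (G.neighborSet v) := I.subtype (fun x => x ∈ G.neighborSet v)
    have hJ : (G.induce (G.neighborSet v)).IsIndepSet (J : Set (G.neighborSet v)) := by
      intro x hx y hy _ hadj
      rw [Finset.mem_coe, Finset.mem_subtype] at hx hy
      exact h2 x.1 hx y.1 hy hadj
    have hcard : J.card = I.card := by
      rw [Finset.card_subtype, Finset.filter_true_of_mem hI]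
    rw [← hcard]
    exact hJ.card_le_indepNum
  rcases hs with hs | hs
  · refine clq_of_fam hG hk hs1 (T1.clq_caps hG (c := c) ?_)
    intro T hT
    exact hs T (fun x hx y hy _ => hT x hx y hy)
  · exact clq_large hG hk hs

end Pool.Agent.Results.MP_e2a5d3_al.LargePowers
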