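import Pool.Agent.Helper23.LIN.Main

/-!
# MP_e2a5d3_al : persistence of linear resolutions for the powers of edge ideals
-/

namespace Pool.Agent.Results.MP_e2a5d3_al.LinearResolutions

open Pool.Agent.LQ Pool.Agent.LR

/-- Let `G` be a finite graph and `1 ≤ q ≤ s`. If `I(G)^q` has linear quotients, or only a linear
resolution, then `I(G)^s` has a linear resolution. -/
theorem result (K : Type*) [Field K] {V : Type*} [Fintype V] (G : SimpleGraph V) {q s : ℕ}
    (hq : 1 ≤ q) (hs : q ≤ s)
    (h : HasLinearQuotients (edgeIdeal K G ^ q) ∨ HasLinearResolution (edgeIdeal K G ^ q)) :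
    HasLinearResolution (edgeIdeal K G ^ s) := by
  rcases h with h | h
  · exact Pool.Agent.LIN.lq_hlr K K G hq hs h
  · exact Pool.Agent.LIN.hlr_persist K G hq hs h

end Pool.Agent.Results.MP_e2a5d3_al.LinearResolutions
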