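import Pool.Agent.Helper75.LQ.Persist
import Pool.Agent.Helper75.LQ.NatForm

/-!
# MP_e2a5d3_al : persistence of linear quotients when the heavy hub sets form a chain
-/

namespace Pool.Agent.Results.MP_e2a5d3_al.Persistence

open Pool.Agent.LQ SimpleGraph

/-- Let `G` be a finite graph, `q ≥ 1`, and let `c v + 1 ≥ α(G[N(v)])` for every vertex `v`.
Suppose that the hub sets of weight at least `q` (the weight is the sum of the `c v`) of the induced
cycles of length at least 5 of the complement of `G` form a chain under inclusion. If `I(G)^q` has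
linear quotients, then `I(G)^s` has linear quotients for all `s ≥ q`. -/
theorem result (K : Type*) [Field K] {V : Type*} [Fintype V] (G : SimpleGraph V)
    (c : V → ℕ) (hc : ∀ v, (G.induce (G.neighborSet v)).indepNum ≤ c v + 1) {q : ℕ} (hq : 1 ≤ q)
    (hG : ∀ n n', 5 ≤ n → 5 ≤ n' → ∀ (f : cycleGraph n ↪g Gᶜ) (f' : cycleGraph n' ↪g Gᶜ),
      q ≤ ∑ x, (hubs f).indicator c x → q ≤ ∑ x, (hubs f').indicator c x →
        hubs f ⊆ hubs f' ∨ hubs f' ⊆ hubs f)
    (h : HasLinearQuotients (edgeIdeal K G ^ q)) :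
    ∀ s, q ≤ s → HasLinearQuotients (edgeIdeal K G ^ s) := by
  classical
  intro s hs
  rw [hasLinearQuotients_iff] at h ⊢
  refine clq_persist_heavy (c := c) ?_ hq ?_ h s hs
  · intro v I h1 h2
    refine le_trans ?_ (hc v)
    have hI : ∀ x ∈ I, x ∈ G.neighborSet v := h1
    let J : Finset (G.neighborSet v) := I.subtype (fun x => x ∈ G.neighborSet v)
    have hJ : (G.induce (G.neighborSet v)).IsIndepSet (J : Set (G.neighborSet v)) := by
      intro x hx y hy _ hadj
      rw [Finset.mem_coe, Finset.mem_subtype] at hx hy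
      exact h2 x.1 hx y.1 hy hadj
    have hcard : J.card = I.card := by
      rw [Finset.card_subtype, Finset.filter_true_of_mem hI]
    rw [← hcard]
    exact hJ.card_le_indepNum
  · intro n hn z hz n' hn' z' hz' h1 h2
    obtain ⟨f, hf⟩ := exists_emb hn hz
    obtain ⟨f', hf'⟩ := exists_emb hn' hz'
    have key : ∀ (m : ℕ) (y : ZMod m → V) (g : cycleGraph m ↪g Gᶜ),
        (∀ v, (∀ i, ¬ G.Adj v (y i)) ↔ v ∈ hubs g) → hw G c y = ∑ x, (hubs g).indicator c x := by
      intro m y g hg
      unfold hw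
      refine Finset.sum_congr rfl (fun x _ => ?_)
      by_cases hx : x ∈ hubs g
      · rw [Set.indicator_of_mem hx, if_pos ((hg x).2 hx)]
      · rw [Set.indicator_of_notMem hx, if_neg (fun h' => hx ((hg x).1 h'))]
    rw [key n z f hf] at h1
    rw [key n' z' f' hf'] at h2
    rcases hG n n' hn hn' f f' h1 h2 with h3 | h3
    · exact Or.inl (fun v hv => (hf' v).2 (h3 ((hf v).1 hv)))
    · exact Or.inr (fun v hv => (hf v).2 (h3 ((hf' v).1 hv)))

end Pool.Agent.Results.MP_e2a5d3_al.Persistence
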