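import Pool.Agent.Helper23.LIN.RegMain

/-!
# MP_e2a5d3_al : the regularity of the powers of the edge ideal of a gapfree graph
-/

namespace Pool.Agent.Results.MP_e2a5d3_al.Regularity

open Pool.Agent.LQ Pool.Agent.LR

/-- Let `G` be a finite gapfree graph with at least one edge and `q ≥ 1`. Then
`reg I(G)^q = max (2 q, reg I(G) + q - 1)`. -/
theorem result (K : Type*) [Field K] {V : Type*} [Fintype V] (G : SimpleGraph V)
    (hG : ∀ a b c d, G.Adj a b → G.Adj c d → G.Adj a c ∨ G.Adj a d ∨ G.Adj b c ∨ G.Adj b d)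
    (hE : ∃ a b, G.Adj a b) {q : ℕ} (hq : 1 ≤ q) :
    reg (edgeIdeal K G ^ q) = max (2 * q) (reg (edgeIdeal K G) + q - 1) :=
  Pool.Agent.LIN.reg_pow_eq K G hG hE hq

end Pool.Agent.Results.MP_e2a5d3_al.Regularity
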